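import Pool.Agent.R122.BN.Main

/-!
# MP_4d0cf5_co, Q1: the answer is NO (the negated form holds)

Metrics `d(i, j) = Pr[X_i ≠ X_j]` of Bayesian networks on binary variables whose underlying graph has
treewidth `2` do not embed into `ℓ₁` with constant distortion using `N^{o(1)}` dimensions.

The network: start with the constants `X_s = 0`, `X_t = 1`; every edge `xy` of level `j` receives
two new variables `m, m'`, each of which copies `X_x` or `X_y` according to its own independent fair
coin; the edges of level `j + 1` are `xm, my, xm', m'y`.  The underlying graph is a partial 2-tree.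
If the metric of the network of depth `n` (on `N ≤ 4 · 5^n` variables) embeds into `ℓ₁^k` with
distortion at most `C`, then `n ≤ 32 C² log (1 + (k + 1) C)` (`R122BN.lower_bound`), that is
`k ≥ N^{c / C²}` up to a constant depending on `C`.

All definitions are in `Pool/Agent/R122/BN/Defs.lean`.
-/

namespace Pool.Agent.Results.MP_4d0cf5_co.TreewidthTwo

open R122BN Filter Topology

/-- For every constant `C ≥ 1` and every function `k(N) = N^{o(1)}` there is a Bayesian network on
some number `N` of binary variables, with underlying undirected graph of treewidth exactly `2`,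
whose metric has no embedding into `ℓ₁^{k(N)}` with distortion at most `C`. -/
theorem result (C : ℝ) (hC : 1 ≤ C) (k : ℕ → ℕ)
    (hk : Tendsto (fun N : ℕ => Real.log (k N) / Real.log N) atTop (𝓝 0)) :
    ∃ (V : Type) (_ : Fintype V) (_ : DecidableEq V) (B : BayesNet V),
      TreewidthTwo B.underlying ∧ ¬ EmbedsL1 B.dist (k (Fintype.card V)) C := by
  obtain ⟨n, hn, h⟩ := main C hC k hk
  exact ⟨V n, inferInstance, inferInstance, net n, tw_two hn, h⟩

end Pool.Agent.Results.MP_4d0cf5_co.TreewidthTwo
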